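import Pool.Agent.N220.CF.Q5

/-!
# Pairs of primes in `(n + 4, 2 ^ (n + 4))` with differences near the denominators of the convergents of almost every number

For almost every real number `ξ`, all integers `κ ≥ 1`, `W` and `c` and all large `n`: for ALL denominators `q` of convergents of
`ξ` with `2 n + 8 ≤ q ≤ 2 ^ n / (κ + |c| + 2)` and ALL even `h` with `|h - (κ q + c)| ≤ log ^ W q` there are at least
`q / (4 log ^ 2 q)` primes `p` with `n + 4 < p < p + h < 2 ^ (n + 4)` for which `p + h` is prime.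
-/

set_option autoImplicit false

namespace Pool.Agent.Results.MP_b51559_nt.ConvergentDifferences

open Finset Filter MeasureTheory Topology
open Pool.Agent.N220.CF (HL FixedPair pairs_fixed adm_one series_pair)

/-- The number of the primes `p` with `n + 4 < p < 2 ^ (n + 4)` for which `p + h` is a prime below `2 ^ (n + 4)`. -/
def pairs (n h : ℕ) : ℕ :=
  ((Ioo (n + 4) (2 ^ (n + 4))).filter (fun p : ℕ => p.Prime ∧ (p + h).Prime ∧ p + h < 2 ^ (n + 4))).card

/-- one difference -/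
lemma pairs_of {q n h : ℕ} (hq : 2 * n + 8 ≤ q) (hqh : q + h < 2 ^ (n + 4)) (hL : 2 ≤ Real.log q) (hh : Even h)
    (H : HL (1 / 4) 1 1 q ![1, 1] ![0, (h : ℤ)]) : (q : ℝ) / (4 * Real.log q ^ 2) ≤ pairs n h := by
  obtain ⟨S, -, hSt, hS⟩ := H
  have hS1 : 1 ≤ S := series_pair (h : ℤ) (by exact_mod_cast hh) hSt
  have hlen : (q : ℝ) / 2 ≤ (q : ℝ) - ((q / 2 : ℕ) : ℝ) := by
    have h1 : ((q / 2 : ℕ) : ℝ) ≤ (q : ℝ) / 2 := Nat.cast_div_le
    linarith
  have h0 : (0 : ℝ) ≤ q := by positivity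
  have h1 : (q : ℝ) / Real.log q ^ 1 ≤ (q : ℝ) - ((q / 2 : ℕ) : ℝ) := by
    rw [pow_one]
    exact (div_le_div_of_nonneg_left h0 (by norm_num) hL).trans hlen
  have h2 := (abs_le.1 (hS (q / 2) q (Nat.div_le_self q 2) (by omega) h1)).1
  have hL2 : 0 < Real.log (q : ℝ) ^ 2 := by positivity
  have h3 : (q : ℝ) / 2 / Real.log q ^ 2 ≤ S * ((q : ℝ) - ((q / 2 : ℕ) : ℝ)) / Real.log q ^ 2 := by
    apply div_le_div_of_nonneg_right _ hL2.le
    calc (q : ℝ) / 2 = 1 * ((q : ℝ) / 2) := (one_mul _).symm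
      _ ≤ S * ((q : ℝ) - ((q / 2 : ℕ) : ℝ)) := mul_le_mul hS1 hlen (by positivity) (by linarith)
  have h4 : (Pool.Agent.N220.CF.count ![1, 1] ![0, (h : ℤ)] (q / 2) q : ℝ) ≤ pairs n h := by
    rw [Nat.cast_le]
    apply card_le_card
    intro p hp
    rw [mem_filter, mem_Ioc, Fin.forall_fin_two] at hp
    simp only [Matrix.cons_val_zero, Matrix.cons_val_one] at hp
    obtain ⟨⟨h5, h6⟩, h7, h8⟩ := hp
    rw [mem_filter, mem_Ioo]
    have e1 : (1 * (p : ℤ) + 0).natAbs = p := by omega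
    have e2 : (1 * (p : ℤ) + (h : ℤ)).natAbs = p + h := by omega
    rw [e1] at h7
    rw [e2] at h8
    exact ⟨⟨by omega, by omega⟩, h7, h8, by omega⟩
  have h5 : (q : ℝ) / (4 * Real.log q ^ 2) = 1 / 2 * ((q : ℝ) / 2 / Real.log q ^ 2) := by
    field_simp
    norm_num
  rw [h5]
  have h6 : 0 ≤ (q : ℝ) / 2 / Real.log q ^ 2 := by positivity
  linarith

/-- **Pairs of primes in `(n + 4, 2 ^ (n + 4))` with differences near the denominators of the convergents.** -/
theorem result : ∀ᵐ ξ : ℝ, ∀ (κ W : ℕ) (c : ℤ), 1 ≤ κ → ∃ n₀ : ℕ, ∀ n : ℕ, n₀ ≤ n → ∀ j : ℕ,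
    2 * n + 8 ≤ (ξ.convergent j).den → (κ + c.natAbs + 2) * (ξ.convergent j).den ≤ 2 ^ n →
      ∀ h : ℕ, Even h → |(h : ℝ) - (κ * (ξ.convergent j).den + c)| ≤ Real.log (ξ.convergent j).den ^ W →
        ((ξ.convergent j).den : ℝ) / (4 * Real.log (ξ.convergent j).den ^ 2) ≤ pairs n h := by
  filter_upwards [pairs_fixed.2] with ξ hξ κ W c hκ
  have hev := hξ 1 κ c 1 1 W (1 / 4) (by exact_mod_cast (by omega : κ ≠ 0)) (by norm_num)
  obtain ⟨j₀, hj₀⟩ := eventually_atTop.1 hev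
  obtain ⟨q₁, h1⟩ := Pool.Agent.H373R2.T7.ev_L' 2
  obtain ⟨q₂, h2⟩ := Pool.Agent.H373R2.T7.ev_log' W 1
  refine ⟨(∑ j ∈ range j₀, (ξ.convergent j).den) + q₁ + q₂ + c.natAbs + 4, fun n hn j hq hqn h hh hd => ?_⟩
  have hj : j₀ ≤ j := by
    by_contra hcon
    have h3 : (ξ.convergent j).den ≤ ∑ j ∈ range j₀, (ξ.convergent j).den :=
      single_le_sum (f := fun j => (ξ.convergent j).den) (fun _ _ => Nat.zero_le _) (mem_range.2 (by omega))
    omega
  obtain ⟨q, hqd⟩ : ∃ q, q = (ξ.convergent j).den := ⟨_, rfl⟩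
  have h4 := hj₀ j hj
  rw [← hqd] at hq hqn hd h4 ⊢
  have hL := h1 q (by omega)
  have hW := h2 q (by omega)
  rw [one_mul] at hW
  have hq4 : (4 : ℝ) ≤ q := by exact_mod_cast (by omega : 4 ≤ q)
  have hsq : √(q : ℝ) ≤ q / 2 := by
    rw [Real.sqrt_le_left (by linarith)]
    nlinarith
  have hhpos : 0 < h := by
    have h5 := (abs_le.1 hd).1
    have h6 : (c.natAbs : ℝ) ≤ (q : ℝ) / 2 := by
      have : 2 * c.natAbs ≤ q := by omega
      have : (2 : ℝ) * c.natAbs ≤ q := by exact_mod_cast this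
      linarith
    have h7 : -(c.natAbs : ℝ) ≤ c := by
      have : -(c.natAbs : ℤ) ≤ c := by omega
      exact_mod_cast this
    have h8 : (q : ℝ) ≤ κ * q := by
      have : (1 : ℝ) ≤ κ := by exact_mod_cast hκ
      nlinarith
    have h9 : 2 * c.natAbs + 8 ≤ q := by omega
    have h10 : (2 : ℝ) * c.natAbs + 8 ≤ q := by exact_mod_cast h9
    have h11 : (0 : ℝ) < h := by linarith
    exact_mod_cast h11
  have hup : q + h ≤ (κ + c.natAbs + 2) * q := by
    have h5 := (abs_le.1 hd).2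
    have h6 : (c : ℝ) ≤ c.natAbs * q := by
      have e1 : (c : ℝ) ≤ c.natAbs := by
        rw [Nat.cast_natAbs]
        exact_mod_cast le_abs_self c
      have e2 : (c.natAbs : ℝ) * 1 ≤ c.natAbs * q := mul_le_mul_of_nonneg_left (by linarith) (by positivity)
      linarith
    have h7 : (h : ℝ) ≤ κ * q + c.natAbs * q + q := by linarith
    have h8 : h ≤ κ * q + c.natAbs * q + q := by exact_mod_cast h7
    nlinarith
  refine pairs_of hq (lt_of_le_of_lt (hup.trans hqn) (Nat.pow_lt_pow_right (by norm_num) (by omega))) hL hh ?_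
  refine h4 h ?_ (adm_one h (by exact_mod_cast hh) (by omega))
  push_cast
  exact hd

end Pool.Agent.Results.MP_b51559_nt.ConvergentDifferences
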