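import Pool.Agent.N646.UW.Main2

/-!
# Prime pairs of `(n + 4, Y)` with differences near the differences of any `m` places

At every place `u ≤ Y / 6` and every scale down to `λ log Y` a positive proportion of the multiples of a constant
`M` near `u`, near `2 u` or near `3 u` are differences of at least `κ Y / (log Y) ^ 2` pairs of primes between
`n + 4` and `Y` (for example `Y = 2 ^ (n + 4)`).  This is the case `m = 4` of an inequality for the windows around
the differences of ANY `m` places.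

The multidimensional sieve weights (large hitting sets with the constant `18 / 5`) are those of the starting
files; the passage to the right order and the cliques are project RG of this team (helpers 31, 123, 316, 434, 591,
595, 646, 700 and others).
-/

set_option autoImplicit false

open Finset Filter

namespace Pool.Agent.Results.MP_b51559_nt.DifferencesNearMultiples

/-- the number of the primes `p` for which `p` and `p + h` are primes between `n + 4` and `Y` -/
noncomputable def pairs (h : ℤ) (n Y : ℕ) : ℕ :=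
  {p : ℕ | p.Prime ∧ n + 4 < p ∧ p < Y ∧ ∃ q : ℕ, q.Prime ∧ n + 4 < q ∧ q < Y ∧ (q : ℤ) = p + h}.ncard

/-- the number of the nonzero multiples `h` of `M` with `|h - v| < M T` which are the difference of at least
`κ Y / (log Y) ^ 2` pairs of primes between `n + 4` and `Y` -/
noncomputable def goodNear (κ : ℝ) (n Y M T : ℕ) (v : ℤ) : ℕ :=
  {h : ℤ | h ≠ 0 ∧ (M : ℤ) ∣ h ∧ |h - v| < M * T ∧ κ * Y / Real.log Y ^ 2 ≤ (pairs h n Y : ℝ)}.ncard

/-- For all `m`, all `s < 5 m / 18` and `ε > 0` there is `M ≥ 1` such that for all `lam > 0` there is `κ > 0` with: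
for all large `n`, all `Y ≥ (n + 4) ^ 2`, all `T` with `lam log Y ≤ T` and `100 M T ≤ Y` and ALL multiples
`c 0, ..., c (m - 1)` of `M` up to `Y / 2` the numbers `goodNear` of the good differences in the windows around
`c j - c i`, `i < j`, have a sum of at least `(s (5 m / 18) - ε) T`. -/
theorem result (m s : ℕ) (hs : 18 * s < 5 * m) (ε : ℝ) (hε : 0 < ε) : ∃ M : ℕ, 1 ≤ M ∧
    ∀ lam : ℝ, 0 < lam → ∃ κ : ℝ, 0 < κ ∧ ∀ᶠ n : ℕ in atTop, ∀ Y : ℕ, (n + 4) ^ 2 ≤ Y → ∀ T : ℕ,
      lam * Real.log Y ≤ T → 100 * (M * T) ≤ Y → ∀ c : Fin m → ℕ, (∀ i, M ∣ c i) → (∀ i, 2 * c i ≤ Y) →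
      (s * (5 * m / 18) - ε) * (T : ℝ) ≤
        ∑ i, ∑ j ∈ Ioi i, (goodNear κ n Y M T ((c j : ℤ) - c i) : ℝ) := by
  obtain ⟨M, hM, h⟩ := Pool.Agent.N646.UW.main m s hs ε hε
  refine ⟨M, hM, fun lam hlam => ?_⟩
  obtain ⟨κ, hκ, hx⟩ := h lam hlam
  obtain ⟨Y₀, hY₀⟩ := eventually_atTop.1 hx
  refine ⟨κ, hκ, ?_⟩
  filter_upwards [eventually_ge_atTop Y₀] with n hn Y hY T hT1 hT2 c hc1 hc2
  have h1 : Y₀ ≤ Y := by nlinarith
  exact hY₀ Y h1 (n + 4) hY T hT1 hT2 c hc1 hc2

end Pool.Agent.Results.MP_b51559_nt.DifferencesNearMultiples
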