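import Pool.Agent.N625.PT.X14

/-!
# Pairs of primes `p`, `p + H` in the interval `(n + 4, 2 ^ (n + 4))` for random multiples `H` of a small primorial, `p` in an
arbitrary dense set of primes

Nothing is used besides Mathlib in the statement: `∑ v ∈ range (b ^ k), (if P v then μ v else 0)` is the probability that
the random integer `v < b ^ k` with the distribution `μ` has the property `P`.
-/

set_option autoImplicit false

open Finset

namespace Pool.Agent.Results.MP_b51559_nt.ExchangeableDifferences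

/-- The probability, for the distribution `μ` on the words of `k` digits (the integers `v < b ^ k`), that the word begins with
the `i` digits of `u < b ^ i`. -/
noncomputable def begins (b k : ℕ) (μ : ℕ → ℝ) (i u : ℕ) : ℝ := ∑ w ∈ range (b ^ (k - i)), μ (u * b ^ (k - i) + w)

/-- `p` is a probability on the words of `k` digits in base `b`, read as integers `v < b ^ k`. There is another probability
`μ` with `p ≤ k ^ T μ` such that after every beginning `u` two different blocks `a`, `a'` of `L` digits can be exchanged: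
`p (u a w) = r p (u a' w)` for all endings `w`, with a factor `r` between `η` and `1 / η` which does not depend on `w`; and
given the beginning `u`, each of the two blocks comes next with a probability of at least `η` in the distribution `μ`.
(For `T = 0` one has `μ = p`. For the uniform distribution on a set of words `r` is `1`.) -/
structure Exchangeable (b L : ℕ) (η : ℝ) (T k : ℕ) (p : ℕ → ℝ) : Prop where
  nonneg : ∀ v, 0 ≤ p v
  sum : ∑ v ∈ range (b ^ k), p v = 1
  dominated : ∃ μ : ℕ → ℝ, (∀ v, 0 ≤ μ v) ∧ ∑ v ∈ range (b ^ k), μ v = 1 ∧ (∀ v < b ^ k, p v ≤ (k : ℝ) ^ T * μ v) ∧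
    ∀ i u : ℕ, i + L ≤ k → u < b ^ i → ∃ (a a' : ℕ) (r : ℝ), a < a' ∧ a' < b ^ L ∧ η ≤ r ∧ η * r ≤ 1 ∧
      (∀ w < b ^ (k - (i + L)), p ((b ^ L * u + a) * b ^ (k - (i + L)) + w) = r * p ((b ^ L * u + a') * b ^ (k - (i + L)) + w)) ∧
      η * begins b k μ i u ≤ begins b k μ (i + L) (b ^ L * u + a) ∧
      η * begins b k μ i u ≤ begins b k μ (i + L) (b ^ L * u + a')

/-- the product of `1 - 1/q` over the primes `q ≤ y` -/
noncomputable def V (y : ℕ) : ℝ := ∏ q ∈ (Icc 1 y).filter Nat.Prime, (1 - 1 / (q : ℝ))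

/-- the multiple of the product of the primes `≤ y` given by the integers `h` and `c + κ v` -/
def Nv (y h : ℕ) (c κ : ℤ) (v : ℕ) : ℤ := ((primorial y * h : ℕ) : ℤ) * (c + κ * v)

/-- the primes `p` with `n + 4 < p < 2 ^ (n + 3)` -/
def Primes (n : ℕ) : Finset ℕ := (Icc 1 (2 ^ (n + 3))).filter (fun p : ℕ => p.Prime ∧ n + 4 < p)

/-- the `p ∈ S` such that `p + H` is a prime smaller than `2 ^ (n + 4)` -/
def Pairs (n : ℕ) (S : Finset ℕ) (H : ℤ) : Finset ℕ := S.filter (fun p : ℕ => (p : ℤ) + H < 2 ^ (n + 4) ∧ ((p : ℤ) + H).toNat.Prime)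

lemma begins_sum (b k : ℕ) (μ : ℕ → ℝ) (i u : ℕ) (hi : i < k) :
    ∑ a ∈ range b, begins b k μ (i + 1) (b * u + a) = begins b k μ i u := by
  unfold begins
  obtain ⟨n, hn⟩ : ∃ n, k - i = n + 1 := ⟨k - i - 1, by omega⟩
  have h1 : k - (i + 1) = n := by omega
  rw [h1, hn, pow_succ, mul_comm (b ^ n) b, Pool.Agent.N625.PT.sum_blocks b (b ^ n)]
  apply sum_congr rfl
  intro a _
  apply sum_congr rfl
  intro w _
  congr 1
  ring

lemma flex_of {b L T k : ℕ} {η : ℝ} {p : ℕ → ℝ} (hp : Exchangeable b L η T k p) : Pool.Agent.N625.PT.Flex b L η T k p := by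
  obtain ⟨h0, h1, μ, m0, m1, m2, m3⟩ := hp
  have hT : (0 : ℝ) ≤ (k : ℝ) ^ T := by positivity
  have hb0 : ∀ i u, 0 ≤ begins b k μ i u := fun i u => sum_nonneg fun w _ => m0 _
  refine ⟨h0, h1, fun i u => (k : ℝ) ^ T * begins b k μ i u, fun i u => mul_nonneg hT (hb0 i u), ?_, ?_, ?_, ?_⟩
  · intro v hv
    refine (m2 v hv).trans (le_of_eq ?_)
    unfold begins
    simp
  · intro i hi u _
    simp only
    rw [← mul_sum, begins_sum b k μ i u hi]
  · simp only
    have : begins b k μ 0 0 = 1 := by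
      unfold begins
      simpa using m1
    rw [this, mul_one]
  · intro i u hi hu
    obtain ⟨a, a', r, q1, q2, q3, q4, q5, q6, q7⟩ := m3 i u hi hu
    refine ⟨a, a', r, q1, q2, q3, q4, q5, ?_, ?_⟩
    · simp only
      calc η * ((k : ℝ) ^ T * begins b k μ i u) = (k : ℝ) ^ T * (η * begins b k μ i u) := by ring
        _ ≤ _ := mul_le_mul_of_nonneg_left q6 hT
    · simp only
      calc η * ((k : ℝ) ^ T * begins b k μ i u) = (k : ℝ) ^ T * (η * begins b k μ i u) := by ring
        _ ≤ _ := mul_le_mul_of_nonneg_left q7 hT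

/-- Let `v < b ^ k` be a random integer whose distribution `μ` has exchangeable blocks of digits, let `y` be between
`θ log k` and `K₁ log k` (`θ > 0` is arbitrary), `M` the product of the primes `≤ y`, `|c| ≤ B b ^ k`, `1 ≤ h ≤ k ^ J`,
`H = M h (c + κ v)`, and let `n` be an integer with `b ^ k ≤ 2 ^ n k ^ C`, `2 ^ n ≤ b ^ k k ^ C`. (1) For EVERY set `S` of at
least `2 ^ n / k ^ A` primes `p` with `n + 4 < p < 2 ^ (n + 3)` the following has a probability of at most `ε`:
`0 ≤ H < 2 ^ (n + 3)`, and the number of the `p ∈ S` such that `p + H` is a prime (`n + 4 < p ≤ p + H < 2 ^ (n + 4)`) differs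
from the expected number `E = #S / (V y log b ^ k)` by more than `ε E`. (2) This holds for the set of all primes `p` with
`n + 4 < p < 2 ^ (n + 3)`. -/
theorem result : ∀ (b L : ℕ), 2 ≤ b → 1 ≤ L → ∀ η : ℝ, 0 < η → η ≤ 1 → ∀ (T₀ : ℕ) (κ : ℤ), κ ≠ 0 →
    ∀ (B J A C K₁ : ℕ) (θ : ℝ), 0 < θ → ∀ ε : ℝ, 0 < ε → ε ≤ 1 → ∃ k₀ : ℕ, ∀ k : ℕ, k₀ ≤ k →
    ∀ μ : ℕ → ℝ, Exchangeable b L η T₀ k μ → ∀ y : ℕ, θ * Real.log k ≤ y → y ≤ K₁ * Real.log k →
    ∀ c : ℤ, |c| ≤ B * (b : ℤ) ^ k → ∀ h : ℕ, 1 ≤ h → h ≤ k ^ J → ∀ n : ℕ, b ^ k ≤ 2 ^ n * k ^ C → 2 ^ n ≤ b ^ k * k ^ C →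
      (∀ S : Finset ℕ, S ⊆ Primes n → (2 : ℝ) ^ n ≤ S.card * (k : ℝ) ^ A →
        ∑ v ∈ range (b ^ k), (if 0 ≤ Nv y h c κ v ∧ Nv y h c κ v < 2 ^ (n + 3) ∧
          ε * (S.card / (V y * (k * Real.log b))) <
            |((Pairs n S (Nv y h c κ v)).card : ℝ) - S.card / (V y * (k * Real.log b))| then μ v else 0) ≤ ε) ∧
      ∑ v ∈ range (b ^ k), (if 0 ≤ Nv y h c κ v ∧ Nv y h c κ v < 2 ^ (n + 3) ∧
          ε * ((Primes n).card / (V y * (k * Real.log b))) <
            |((Pairs n (Primes n) (Nv y h c κ v)).card : ℝ) - (Primes n).card / (V y * (k * Real.log b))| then μ v else 0) ≤ ε := by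
  classical
  intro b L hb hL η hη0 hη1 T₀ κ hκ B J A C K₁ θ hθ ε hε hε1
  obtain ⟨k₀, h0⟩ := Pool.Agent.N625.PT.law2P b L hb hL η hη0 hη1 κ hκ T₀ B J (max A 4 + 1) (C + 1) K₁ θ hθ ε hε hε1
  obtain ⟨k₁, h1⟩ := Pool.Agent.N625.PT.primes_dense b (C + 1) hb
  obtain ⟨k₂, h2⟩ := Pool.Agent.N625.PT.log_X b C hb
  refine ⟨max (max k₀ k₁) (max k₂ 8), fun k hk μ hμ y hy1 hy2 c hc h hh1 hhJ n hn1 hn2 => ?_⟩
  have b0 : 8 ≤ k := by omega
  have hkr : (8 : ℝ) ≤ k := by exact_mod_cast b0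
  have hk0 : (0 : ℝ) < k := by linarith
  have hX1 : b ^ k ≤ 2 ^ (n + 3) * k ^ (C + 1) := by
    calc b ^ k ≤ 2 ^ n * k ^ C := hn1
      _ ≤ _ := Nat.mul_le_mul (Nat.pow_le_pow_right (by norm_num) (by omega)) (Nat.pow_le_pow_right (by omega) (by omega))
  have hX2 : 2 ^ (n + 3) ≤ b ^ k * k ^ (C + 1) := by
    calc 2 ^ (n + 3) = 2 ^ n * 8 := by ring
      _ ≤ (b ^ k * k ^ C) * k := Nat.mul_le_mul hn2 b0
      _ = _ := by rw [pow_succ]; ring
  have hnk : n + 4 ≤ k ^ 3 := by
    have g1 := h2 k (by omega) (2 ^ n) hn2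
    push_cast at g1
    rw [Real.log_pow] at g1
    have g2 := Real.log_two_gt_d9
    have g3 : (n : ℝ) * 0.5 ≤ (k : ℝ) ^ 2 := by
      have : (0 : ℝ) ≤ n := Nat.cast_nonneg n
      nlinarith
    have g4 : ((n + 4 : ℕ) : ℝ) ≤ ((k ^ 3 : ℕ) : ℝ) := by
      push_cast
      have : (k : ℝ) ^ 3 = k * (k : ℝ) ^ 2 := by ring
      nlinarith
    exact_mod_cast g4
  have hsubP : Primes n ⊆ Icc 1 (2 ^ (n + 3)) := filter_subset _ _
  have hflex := flex_of hμ
  have main : ∀ S : Finset ℕ, S ⊆ Primes n → ((2 ^ (n + 3) : ℕ) : ℝ) ≤ S.card * (k : ℝ) ^ (max A 4 + 1) →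
        ∑ v ∈ range (b ^ k), (if 0 ≤ Nv y h c κ v ∧ Nv y h c κ v < 2 ^ (n + 3) ∧
          ε * (S.card / (V y * (k * Real.log b))) <
            |((Pairs n S (Nv y h c κ v)).card : ℝ) - S.card / (V y * (k * Real.log b))| then μ v else 0) ≤ ε := by
    intro S hS hSA
    have h5 := h0 k (by omega) μ hflex y hy1 hy2 c hc h hh1 hhJ (2 ^ (n + 3)) hX1 hX2 S (hS.trans hsubP)
      (fun s hs => (mem_filter.1 (hS hs)).2.1) hSA 1 (Or.inl rfl)
    refine le_trans (sum_le_sum fun v _ => ?_) h5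
    have hpv := hμ.nonneg v
    by_cases hq : 0 ≤ Nv y h c κ v ∧ Nv y h c κ v < 2 ^ (n + 3) ∧
          ε * (S.card / (V y * (k * Real.log b))) <
            |((Pairs n S (Nv y h c κ v)).card : ℝ) - S.card / (V y * (k * Real.log b))|
    · rw [if_pos hq, if_pos]
      obtain ⟨q1, q2, q3⟩ := hq
      refine ⟨fun s hs => ?_, ?_⟩
      · have := (mem_Icc.1 (hsubP (hS hs))).1
        have q1' : 0 ≤ Pool.Agent.N625.PT.Nm y h c κ v := q1
        have : (1 : ℤ) ≤ s := by exact_mod_cast this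
        linarith
      · have e1 : (Pairs n S (Nv y h c κ v)).card =
            (S.filter (fun s : ℕ => (Pool.Agent.N625.PT.Nm y h c κ v + 1 * (s : ℕ)).toNat.Prime)).card := by
          unfold Pairs
          congr 1
          apply filter_congr
          intro s hs
          have g1 := (mem_Icc.1 (hsubP (hS hs))).2
          have g2 : (s : ℤ) ≤ 2 ^ (n + 3) := by exact_mod_cast g1
          have g3 : (2 : ℤ) ^ (n + 4) = 2 * 2 ^ (n + 3) := by ring
          have g4 : (s : ℤ) + Nv y h c κ v = Pool.Agent.N625.PT.Nm y h c κ v + 1 * (s : ℕ) := by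
            have : Nv y h c κ v = Pool.Agent.N625.PT.Nm y h c κ v := rfl
            rw [this]
            ring
          rw [← g4]
          constructor
          · rintro ⟨_, g5⟩
            exact g5
          · intro g5
            exact ⟨by linarith, g5⟩
        rw [e1] at q3
        exact q3
    · rw [if_neg hq]
      split_ifs
      · exact hpv
      · exact le_rfl
  refine ⟨fun S hS hSA => main S hS ?_, main (Primes n) (Subset.refl _) ?_⟩
  · push_cast
    calc (2 : ℝ) ^ (n + 3) = 8 * 2 ^ n := by ring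
      _ ≤ k * (S.card * (k : ℝ) ^ A) := mul_le_mul hkr hSA (by positivity) hk0.le
      _ = S.card * (k : ℝ) ^ (A + 1) := by ring
      _ ≤ _ := by
          apply mul_le_mul_of_nonneg_left _ (Nat.cast_nonneg _)
          exact pow_le_pow_right₀ (by linarith) (by omega)
  · have := h1 k (by omega) (2 ^ (n + 3)) hX1 hX2 (n + 4) hnk
    refine (le_trans this ?_)
    have e1 : ((Icc 1 (2 ^ (n + 3))).filter (fun p : ℕ => p.Prime ∧ n + 4 < p)).card = (Primes n).card := by
      unfold Primes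
      congr!
    rw [e1]
    apply mul_le_mul_of_nonneg_left _ (Nat.cast_nonneg _)
    exact pow_le_pow_right₀ (by linarith) (by omega)

end Pool.Agent.Results.MP_b51559_nt.ExchangeableDifferences
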