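import Mathlib
import Pool.Agent.N909.TF.Tools
import Pool.Agent.N654.TP.Low

/-!
# Twin primes in every interval `(n + 4, 2 ^ (n + 4))` in all sieved sequential models of the primes

The integers are decided one after the other, only integers coprime to a fixed `Q` can be chosen, and
the conditional probability of choosing `n + 1` (coprime to `Q`) given the past is asymptotic to
`(Q / φ(Q)) / log n`, almost surely.  No independence and no rate of convergence is assumed.  We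
determine the longest gap between chosen pairs `p, p + h`: with `α = (ν / Q) (Q / φ(Q))²`, `ν` the number
of residue classes `a` modulo `Q` with `a` and `a + h` coprime to `Q`, the longest gap up to `n` is
asymptotic to `(1 / α) log³ n`.  In particular almost surely for all large `n` there is a chosen pair
`p, p + 2` with `n + 4 < p` and `p + 2 < 2 ^ (n + 4)`.
-/

set_option autoImplicit false

open MeasureTheory Filter
open scoped Topology

namespace Pool.Agent.Results.MP_b51559_nt.SievedModels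

/-- the number of residue classes `a` modulo `Q` such that `a` and `a + h` are coprime to `Q` -/
def nu (Q h : ℕ) : ℕ :=
  ((Finset.range Q).filter (fun a => Nat.Coprime a Q ∧ Nat.Coprime (a + h) Q)).card

/-- `α = (ν / Q) (Q / φ(Q))²` -/
noncomputable def alpha (Q h : ℕ) : ℝ := (nu Q h : ℝ) / Q * ((Q : ℝ) / Nat.totient Q) ^ 2

/-- there is a pair `p`, `p + h` of elements of `S` with `x < p` and `p + h ≤ x + d` -/
def PairIn (S : Set ℕ) (h x d : ℕ) : Prop := ∃ p ∈ S, p + h ∈ S ∧ x < p ∧ p + h ≤ x + d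

/-- the least `d` with `PairIn S h x d` (`0` if there is none) -/
noncomputable def gap (S : Set ℕ) (h x : ℕ) : ℕ := sInf {d | PairIn S h x d}

/-- the maximum of `gap S h x` over `x ≤ n` -/
noncomputable def maxGap (S : Set ℕ) (h n : ℕ) : ℕ := (Finset.range (n + 1)).sup (gap S h)

open Pool.Agent.N909.TF

/-- even differences are admissible -/
lemma nu_pos (Q h : ℕ) (hQ : 0 < Q) (hh : Even h) : 0 < nu Q h := by
  obtain ⟨x, hx⟩ := crt_primes Q (fun l => if l ∣ 1 + h then 2 else 1)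
  have key : ∀ l, l.Prime → l ∣ Q → ¬ l ∣ x % Q ∧ ¬ l ∣ x % Q + h := by
    intro l hl hlQ
    have h1 : x % Q ≡ (if l ∣ 1 + h then 2 else 1) [MOD l] := hx (x % Q) (Nat.mod_modEq x Q) l hl hlQ hQ.ne'
    by_cases hd : l ∣ 1 + h
    · rw [if_pos hd] at h1
      have hl2 : l ≠ 2 := by
        rintro rfl
        obtain ⟨k, hk⟩ := hh
        omega
      constructor
      · intro h2
        have h3 : l ∣ 2 := (h1.dvd_iff (dvd_refl l)).1 h2
        exact hl2 ((Nat.prime_dvd_prime_iff_eq hl Nat.prime_two).1 h3)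
      · intro h2
        have h3 : x % Q + h ≡ 2 + h [MOD l] := h1.add_right h
        have h4 : l ∣ 2 + h := (h3.dvd_iff (dvd_refl l)).1 h2
        have h5 : l ∣ 1 := by
          have : 2 + h = (1 + h) + 1 := by ring
          rw [this] at h4
          exact (Nat.dvd_add_right hd).1 h4
        exact hl.one_lt.ne' (Nat.dvd_one.1 h5)
    · rw [if_neg hd] at h1
      constructor
      · intro h2
        have h3 : l ∣ 1 := (h1.dvd_iff (dvd_refl l)).1 h2
        exact hl.one_lt.ne' (Nat.dvd_one.1 h3)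
      · intro h2
        have h3 : x % Q + h ≡ 1 + h [MOD l] := h1.add_right h
        exact hd ((h3.dvd_iff (dvd_refl l)).1 h2)
  refine Finset.card_pos.2 ⟨x % Q, ?_⟩
  rw [Finset.mem_filter, Finset.mem_range]
  refine ⟨Nat.mod_lt _ hQ, ?_, ?_⟩
  · rw [coprime_iff_primes]
    exact fun l hl hlQ => (key l hl hlQ).1
  · rw [coprime_iff_primes]
    exact fun l hl hlQ => (key l hl hlQ).2

/-- the normalisation -/
noncomputable def X (n : ℕ) : ℝ := Real.log n ^ 3

lemma tendsto_log : Tendsto (fun n : ℕ => Real.log (n : ℝ)) atTop atTop :=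
  Real.tendsto_log_atTop.comp tendsto_natCast_atTop_atTop

lemma X_pos {n : ℕ} (h : 2 ≤ n) : 0 < X n := by
  have h1 : 0 < Real.log n := Real.log_pos (by exact_mod_cast h)
  unfold X
  positivity

lemma X_mono {m n : ℕ} (h : 1 ≤ m) (hmn : m ≤ n) : X m ≤ X n := by
  have h2 : Real.log m ≤ Real.log n := Real.log_le_log (by exact_mod_cast h) (by exact_mod_cast hmn)
  unfold X
  exact pow_le_pow_left₀ (Real.log_natCast_nonneg m) h2 3

lemma X_tendsto : Tendsto X atTop atTop := (tendsto_pow_atTop (by norm_num)).comp tendsto_log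

/-- `X` is slowly varying -/
lemma X_quarter {η : ℝ} (hη : 0 < η) (hη1 : η < 1) : ∀ᶠ n : ℕ in atTop, ∀ m : ℕ, n < 4 * m →
    (1 - η) ^ 3 * X n ≤ X m := by
  have h1 : ∀ᶠ n : ℕ in atTop, Real.log 4 ≤ η * Real.log n := (tendsto_log.const_mul_atTop hη).eventually_ge_atTop _
  filter_upwards [h1, eventually_ge_atTop 3] with n g1 g3 m hm
  have hη' : 0 < 1 - η := by linarith
  have hn0 : (0 : ℝ) < n := by
    have : 0 < n := by omega
    exact_mod_cast this
  have hm0 : (0 : ℝ) < m := by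
    have : 0 < m := by omega
    exact_mod_cast this
  have k2 : (1 - η) * Real.log n ≤ Real.log m := by
    have a1 : Real.log n ≤ Real.log (4 * m) := Real.log_le_log hn0 (by exact_mod_cast hm.le)
    rw [Real.log_mul (by norm_num) hm0.ne'] at a1
    linarith
  have k3 : 0 ≤ (1 - η) * Real.log n := mul_nonneg hη'.le (Real.log_natCast_nonneg n)
  unfold X
  calc (1 - η) ^ 3 * Real.log n ^ 3 = ((1 - η) * Real.log n) ^ 3 := by ring
    _ ≤ Real.log m ^ 3 := pow_le_pow_left₀ k3 k2 3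

/-- from the two bounds to the limit -/
lemma lim {g : ℕ → ℕ} {b : ℝ} (hb : 0 < b)
    (hup : ∀ ε : ℝ, 0 < ε → ∀ᶠ m : ℕ in atTop, (g m : ℝ) ≤ (b + ε) * X m)
    (hlow : ∀ ε : ℝ, 0 < ε → ∀ᶠ i : ℕ in atTop, ∃ m, 2 ^ i ≤ m ∧ m < 2 ^ (i + 1) ∧
      (b - ε) * X m < g m) :
    Tendsto (fun n : ℕ => (((Finset.range (n + 1)).sup g : ℕ) : ℝ) / X n) atTop (𝓝 b) := by
  rw [tendsto_order]
  constructor
  · intro a ha
    obtain ⟨ε, hε0, hε1, hεb, hε⟩ : ∃ ε : ℝ, 0 < ε ∧ ε < 1 ∧ ε < b ∧ a < (b - ε) * (1 - ε) ^ 3 := by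
      have h1 : ContinuousAt (fun ε : ℝ => (b - ε) * (1 - ε) ^ 3) 0 := by fun_prop
      have h2 : a < (b - 0) * (1 - 0 : ℝ) ^ 3 := by norm_num; exact ha
      obtain ⟨r, hr, hr'⟩ := Metric.eventually_nhds_iff.1 (h1.eventually (lt_mem_nhds h2))
      refine ⟨min (r / 2) (min (1 / 2) (b / 2)), by positivity,
        lt_of_le_of_lt ((min_le_right _ _).trans (min_le_left _ _)) (by norm_num),
        lt_of_le_of_lt ((min_le_right _ _).trans (min_le_right _ _)) (by linarith), ?_⟩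
      exact @hr' (min (r / 2) (min (1 / 2) (b / 2))) (by
        rw [Real.dist_eq, sub_zero, abs_of_pos (by positivity)]
        exact lt_of_le_of_lt (min_le_left _ _) (by linarith))
    obtain ⟨i₀, hi₀⟩ := eventually_atTop.1 (hlow ε hε0)
    filter_upwards [X_quarter hε0 hε1, eventually_ge_atTop 3, eventually_ge_atTop (2 ^ (i₀ + 1))] with n g1 g2 g3
    have hn0 : n ≠ 0 := by omega
    obtain ⟨j, hj⟩ : ∃ j, j = Nat.log 2 n := ⟨_, rfl⟩
    have h1 : 2 ^ j ≤ n := by rw [hj]; exact Nat.pow_log_le_self 2 hn0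
    have h2 : n < 2 ^ (j + 1) := by rw [hj]; exact Nat.lt_pow_succ_log_self (by norm_num) n
    have h3 : i₀ + 1 ≤ j := by
      by_contra hcon
      push Not at hcon
      have : 2 ^ (j + 1) ≤ 2 ^ (i₀ + 1) := Nat.pow_le_pow_right (by norm_num) hcon
      omega
    obtain ⟨i, rfl⟩ : ∃ i, j = i + 1 := ⟨j - 1, by omega⟩
    obtain ⟨m, m1, m2, m4⟩ := hi₀ i (by omega)
    have h4 : n < 4 * m := by
      have : 2 ^ (i + 1 + 1) = 4 * 2 ^ i := by ring
      omega
    have h5 := g1 m h4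
    have h6 : g m ≤ (Finset.range (n + 1)).sup g := by
      apply Finset.le_sup (f := g)
      rw [Finset.mem_range]
      omega
    have h6' : (g m : ℝ) ≤ (((Finset.range (n + 1)).sup g : ℕ) : ℝ) := by exact_mod_cast h6
    have hX := X_pos (show 2 ≤ n by omega)
    rw [lt_div_iff₀ hX]
    calc a * X n < (b - ε) * (1 - ε) ^ 3 * X n := mul_lt_mul_of_pos_right hε hX
      _ = (b - ε) * ((1 - ε) ^ 3 * X n) := by ring
      _ ≤ (b - ε) * X m := mul_le_mul_of_nonneg_left h5 (by linarith)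
      _ ≤ g m := m4.le
      _ ≤ _ := h6'
  · intro a ha
    obtain ⟨ε, hε⟩ : ∃ ε : ℝ, ε = (a - b) / 2 := ⟨_, rfl⟩
    have hε0 : 0 < ε := by linarith
    obtain ⟨m₀, hm₀⟩ := eventually_atTop.1 (hup ε hε0)
    obtain ⟨C, hC⟩ : ∃ C : ℕ, ∀ m < max m₀ 3, g m ≤ C := by
      refine ⟨(Finset.range (max m₀ 3)).sup g, fun m hm => ?_⟩
      exact Finset.le_sup (f := g) (Finset.mem_range.2 hm)
    filter_upwards [(X_tendsto.const_mul_atTop (show 0 < b + ε by linarith)).eventually_ge_atTop (C : ℝ),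
      eventually_ge_atTop 3] with n g1 g2
    have hX := X_pos (show 2 ≤ n by omega)
    rw [div_lt_iff₀ hX]
    have h1 : (((Finset.range (n + 1)).sup g : ℕ) : ℝ) ≤ (b + ε) * X n := by
      have h2 : (Finset.range (n + 1)).sup g ≤ ⌊(b + ε) * X n⌋₊ := by
        refine Finset.sup_le fun m hm => ?_
        rw [Finset.mem_range] at hm
        apply Nat.le_floor
        by_cases h : m < max m₀ 3
        · have h3 : (g m : ℝ) ≤ C := by exact_mod_cast hC m h
          linarith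
        · push Not at h
          have h3 := hm₀ m (le_trans (le_max_left _ _) h)
          have h4 := X_mono (show 1 ≤ m by have := le_trans (le_max_right _ _) h; omega)
            (show m ≤ n by omega)
          exact h3.trans (mul_le_mul_of_nonneg_left h4 (by linarith))
      exact (Nat.cast_le.2 h2).trans (Nat.floor_le (mul_nonneg (by linarith) hX.le))
    have h5 : (b + ε) * X n < a * X n := mul_lt_mul_of_pos_right (by linarith) hX
    linarith

end Pool.Agent.Results.MP_b51559_nt.SievedModels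

open Pool.Agent.Results.MP_b51559_nt.SievedModels

/-- Let `A n` be the event that `n` is chosen, adapted to a filtration `ℱ`, let `Q ≥ 1`, let no integer
which is not coprime to `Q` be chosen, and let the conditional probability of `A (n + 1)` given `ℱ n`,
times `log n`, tend to `Q / φ(Q)` along the `n` with `n + 1` coprime to `Q`, almost surely.  Let `ν(h)` be
the number of classes `a` modulo `Q` with `a` and `a + h` coprime to `Q` and `α(h) = (ν(h) / Q) (Q / φ(Q))²`.
Then `ν(h) > 0` for even `h`, and almost surely for every `h ≥ 1` with `ν(h) > 0`, with `gap(x)` the least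
`d` such that there is a pair `p`, `p + h` of chosen integers with `x < p` and `p + h ≤ x + d`:
(1) for every `ε > 0`, `gap(x) ≤ (1 / α + ε) log³ x` for all large `x`; (2) for every `ε > 0` every interval
`[2^i, 2^(i+1))` with `i` large contains an `x` with `gap(x) > (1 / α - ε) log³ x`; (3) the maximum of
`gap(x)` over `x ≤ n`, divided by `log³ n`, tends to `1 / α`; (4) for all large `n` there is a pair `p`,
`p + h` of chosen integers with `n + 4 < p` and `p + h < 2 ^ (n + 4)`. -/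
theorem Pool.Agent.Results.MP_b51559_nt.SievedModels.result
    {Ω : Type} [mΩ : MeasurableSpace Ω] (μ : Measure Ω) [IsProbabilityMeasure μ]
    (ℱ : Filtration ℕ mΩ) (A : ℕ → Set Ω) (hA : ∀ n, MeasurableSet[ℱ n] (A n))
    (Q : ℕ) (hQ : 0 < Q) (hcop : ∀ n, ¬ Nat.Coprime n Q → A n = ∅)
    (hd : ∀ᵐ ω ∂μ, Tendsto (fun n : ℕ =>
      (μ[(A (n + 1)).indicator (fun _ => (1 : ℝ)) | ℱ n]) ω * Real.log n)
      (atTop ⊓ 𝓟 {n : ℕ | Nat.Coprime (n + 1) Q}) (𝓝 ((Q : ℝ) / Nat.totient Q))) :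
    (∀ h : ℕ, Even h → 0 < nu Q h) ∧
    ∀ᵐ ω ∂μ, ∀ h : ℕ, 1 ≤ h → 0 < nu Q h →
      (∀ ε : ℝ, 0 < ε →
        (∀ᶠ x : ℕ in atTop, PairIn {k | ω ∈ A k} h x (gap {k | ω ∈ A k} h x) ∧
          (gap {k | ω ∈ A k} h x : ℝ) ≤ (1 / alpha Q h + ε) * Real.log x ^ 3) ∧
        ∀ᶠ i : ℕ in atTop, ∃ x : ℕ, 2 ^ i ≤ x ∧ x < 2 ^ (i + 1) ∧
          (1 / alpha Q h - ε) * Real.log x ^ 3 < gap {k | ω ∈ A k} h x) ∧
      Tendsto (fun n : ℕ => (maxGap {k | ω ∈ A k} h n : ℝ) / Real.log n ^ 3) atTop (𝓝 (1 / alpha Q h)) ∧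
      ∀ᶠ n : ℕ in atTop, ∃ p : ℕ, ω ∈ A p ∧ ω ∈ A (p + h) ∧ n + 4 < p ∧ p + h < 2 ^ (n + 4) := by
  refine ⟨fun h hh => nu_pos Q h hQ hh, ?_⟩
  refine ae_all_iff.2 fun h => ?_
  by_cases hcase : 1 ≤ h ∧ 0 < nu Q h
  swap
  · filter_upwards with ω h1 h2
    exact absurd ⟨h1, h2⟩ hcase
  obtain ⟨hh, hν⟩ := hcase
  have hα : 0 < alpha Q h := Pool.Agent.N654.TP.al_pos Q h hQ hν
  filter_upwards [Pool.Agent.N654.TP.up (μ := μ) hA Q hQ hcop hd hh hν,
    Pool.Agent.N654.TP.low (μ := μ) hA Q hQ hcop hd hh hν] with ω h1 h2 _ _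
  obtain ⟨S, hS⟩ : ∃ S : Set ℕ, S = {k | ω ∈ A k} := ⟨_, rfl⟩
  have hmem : ∀ k, k ∈ S ↔ ω ∈ A k := by
    intro k
    rw [hS]
    exact Iff.rfl
  rw [← hS]
  have h1' : ∀ ε : ℝ, 0 < ε → ∀ᶠ x : ℕ in atTop, ∃ p : ℕ, x < p ∧
      ((p + h : ℕ) : ℝ) ≤ x + (1 / alpha Q h + ε) * Real.log x ^ 3 ∧ p ∈ S ∧ p + h ∈ S := by
    intro ε hε
    filter_upwards [h1 ε hε] with x hx
    obtain ⟨p, p1, p2, p3, p4⟩ := hx
    exact ⟨p, p1, p2, (hmem p).2 p3, (hmem (p + h)).2 p4⟩
  have hne : ∀ᶠ x : ℕ in atTop, PairIn S h x (gap S h x) := by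
    filter_upwards [h1' 1 one_pos] with x hx
    obtain ⟨p, p1, _, p3, p4⟩ := hx
    have hne : {d | PairIn S h x d}.Nonempty := ⟨p + h, p, p3, p4, p1, by omega⟩
    exact Nat.sInf_mem hne
  have hup : ∀ ε : ℝ, 0 < ε → ∀ᶠ x : ℕ in atTop, (gap S h x : ℝ) ≤ (1 / alpha Q h + ε) * X x := by
    intro ε hε
    filter_upwards [h1' ε hε] with x hx
    obtain ⟨p, p1, p2, p3, p4⟩ := hx
    have h3 : gap S h x ≤ p + h - x := Nat.sInf_le ⟨p, p3, p4, p1, by omega⟩
    have h4 : ((p + h - x : ℕ) : ℝ) = ((p + h : ℕ) : ℝ) - x := by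
      rw [Nat.cast_sub (by omega)]
    have h5 : (gap S h x : ℝ) ≤ ((p + h - x : ℕ) : ℝ) := by exact_mod_cast h3
    unfold X
    linarith
  obtain ⟨x₀, hx₀⟩ := eventually_atTop.1 hne
  have hlow : ∀ ε : ℝ, 0 < ε → ∀ᶠ i : ℕ in atTop, ∃ x, 2 ^ i ≤ x ∧ x < 2 ^ (i + 1) ∧
      (1 / alpha Q h - ε) * X x < gap S h x := by
    intro ε hε
    filter_upwards [h2 ε hε, eventually_ge_atTop x₀] with i hi hi2
    obtain ⟨x, n1, n2, n4⟩ := hi
    refine ⟨x, n1, n2, ?_⟩
    have h9 : i < 2 ^ i := Nat.lt_two_pow_self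
    obtain ⟨p, p1, p2, p3, p4⟩ := hx₀ x (by omega)
    by_contra hcon
    push Not at hcon
    refine n4 p p3 ?_ ((hmem p).1 p1) ((hmem (p + h)).1 p2)
    have h5 : ((p + h : ℕ) : ℝ) ≤ ((x + gap S h x : ℕ) : ℝ) := by exact_mod_cast p4
    push_cast at h5
    push_cast
    unfold X at hcon
    have h6 : (gap S h x : ℝ) ≤ (1 / Pool.Agent.N654.TP.al Q h - ε) * Real.log x ^ 3 := hcon
    linarith
  refine ⟨fun ε hε => ⟨?_, hlow ε hε⟩, lim (by positivity) hup hlow, ?_⟩
  · filter_upwards [hne, hup ε hε] with x g1 g2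
    exact ⟨g1, g2⟩
  · have hshift : Tendsto (fun n : ℕ => n + 4) atTop atTop := tendsto_add_atTop_nat 4
    have hl3 := Pool.Agent.N654.TP.log3_le (1 / alpha Q h + 1) (by positivity)
    filter_upwards [hshift.eventually (h1' 1 one_pos), hshift.eventually hl3] with n g1 g2
    obtain ⟨p, p1, p2, p3, p4⟩ := g1
    refine ⟨p, (hmem p).1 p3, (hmem (p + h)).1 p4, p1, ?_⟩
    have h5 : ((p + h : ℕ) : ℝ) ≤ ((2 * (n + 4) : ℕ) : ℝ) := by
      have e : ((2 * (n + 4) : ℕ) : ℝ) = ((n + 4 : ℕ) : ℝ) + ((n + 4 : ℕ) : ℝ) := by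
        push_cast; ring
      rw [e]
      linarith
    have h6 : p + h ≤ 2 * (n + 4) := by exact_mod_cast h5
    have h7 : 2 * (n + 4) < 2 ^ (n + 4) := by
      have h8 : n + 3 < 2 ^ (n + 3) := Nat.lt_two_pow_self
      have h9 : 2 ^ (n + 4) = 2 * 2 ^ (n + 3) := by ring
      have h10 : n + 4 ≤ 2 ^ (n + 3) := h8
      have h11 : n + 4 ≠ 2 ^ (n + 3) := by
        intro h12
        have : ∀ n : ℕ, n + 4 < 2 ^ (n + 3) := by
          intro n
          induction n with
          | zero => norm_num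
          | succ n ih =>
            have : 2 ^ (n + 1 + 3) = 2 * 2 ^ (n + 3) := by ring
            omega
        exact absurd h12 (this n).ne
      omega
    omega
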